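import Pool.Agent.V11244.Zf.Brg
import Pool.Agent.V11244.Zf.STc

/-!
# No injection from the finitary partitions of an infinite set to its three-cycles

In every model of Zermelo set theory (so in every model of ZF): if `a` is infinite, then there is
no injection from the set of all finitary partitions of `a` to the set of all permutations of `a`
with exactly three non-fixed points.

`IsFinPart`, `IsPartSet` are from `Pool.Agent.V11244.Zf.Brg`; `IsFinite`, `IsInj`, `IsBij`, `App`
are from `Pool.Agent.H310R3.Cards`.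
-/

namespace Pool.Agent.Results.MP_1929a6_lc.NoInjectionThreeCycles

open FirstOrder FirstOrder.Language
open Pool.Agent.Helper672.Plain (LSet Mem Zermelo)
open Pool.Agent.H310Cards
open Pool.Agent.V11244Parts

universe u

/-- `g` is a permutation of `a` with exactly three non-fixed points. -/
def IsThreeCycle {M : Type u} [LSet.Structure M] (g a : M) : Prop :=
  IsBij g a a ∧ ∃ x y z, Mem x a ∧ Mem y a ∧ Mem z a ∧ x ≠ y ∧ x ≠ z ∧ y ≠ z ∧
    ∀ w, Mem w a → (¬ App g w w ↔ w = x ∨ w = y ∨ w = z)

/-- `s` is the set of all permutations of `a` with exactly three non-fixed points. -/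
def IsThreeCycleSet {M : Type u} [LSet.Structure M] (s a : M) : Prop :=
  ∀ g, Mem g s ↔ IsThreeCycle g a

open Pool.Agent.Helper672.ZFA Pool.Agent.H310 Pool.Agent.Helper672.ZFA.V244 in
theorem result (M : Type u) [LSet.Structure M] [Zermelo M] (a p s f : M)
    (hp : IsPartSet p a) (hs : IsThreeCycleSet s a) (ha : ¬ IsFinite a) :
    ¬ IsInj f p s := by
  let := Pool.Agent.Helper672.Plain.toL (M := M)
  let : Pool.Agent.Helper672.ZFA.IsModel M := Pool.Agent.Helper672.Plain.isModel_toL
  intro hf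
  -- the three-cycles are codes of permutations
  have hS : ∀ g : M, Pool.Agent.Helper672.Plain.Mem g s →
      ∃ σ : IPm M (El a), code σ = g ∧ Th σ := by
    intro g hg
    obtain ⟨h1, x, y, z, hx, hy, hz, h2, h3, h4, h5⟩ := (hs g).1 hg
    obtain ⟨σ, rfl⟩ := exists_pm h1
    refine ⟨σ, rfl, ⟨x, hx⟩, ⟨y, hy⟩, ⟨z, hz⟩, fun h => h2 (congrArg Subtype.val h),
      fun h => h3 (congrArg Subtype.val h), fun h => h4 (congrArg Subtype.val h), fun w => ?_⟩
    have h7 := h5 w.1 w.2
    rw [app_pm σ w.2] at h7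
    refine h7.trans ?_
    exact or_congr ⟨fun h => Subtype.ext h, fun h => congrArg Subtype.val h⟩
      (or_congr ⟨fun h => Subtype.ext h, fun h => congrArg Subtype.val h⟩
        ⟨fun h => Subtype.ext h, fun h => congrArg Subtype.val h⟩)
  obtain ⟨F, hF, hF'⟩ := exists_fun (α := FPt M (El a)) (β := IPm M (El a)) hf.1
    (fun P => (hp _).2 (code_fpt P)) fun z hz => (hS z hz).imp fun σ h => h.1
  refine no_inj_S3 (not_finP (fun z => mem_El) ha) hF (fun P Q h => ?_) fun P => ?_
  · exact ITy.inj (hf.2 _ _ _ ((hF' P (F Q)).1 h) ((hF' Q (F Q)).1 rfl))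
  · obtain ⟨q, h1, h2⟩ := (hF' P (F P)).1 rfl
    obtain ⟨x', y', h3, h4, h5⟩ := hf.1.1 q h2
    obtain ⟨-, h6⟩ := op_inj ((ordPair_iff.1 h1).symm.trans (ordPair_iff.1 h5))
    obtain ⟨σ, h7, h8⟩ := hS y' h4
    have h9 : F P = σ := ITy.inj (h6.trans h7.symm)
    rw [h9]
    exact h8

end Pool.Agent.Results.MP_1929a6_lc.NoInjectionThreeCycles
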